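import Pool.Agent.U307.RAD.Stm3

/-!
Package CV of project RAD: the change of variables `r = exp (- y / 2)`.
-/

set_option autoImplicit false

open MeasureTheory Filter Topology Set

namespace Pool.Agent.U667.RAD

open Pool.Agent.U307.RAD

theorem gg_eq (n l : ℕ) (y : ℝ) : ph n l (Real.exp (-y / 2)) = gg n l y := by
  unfold ph gg
  refine Finset.sum_congr rfl fun i _ => ?_
  rw [← Real.exp_nat_mul]
  congr 2
  push_cast
  ring

theorem image_exp : (fun y : ℝ => Real.exp (-y / 2)) '' Ioi 0 = Ioo 0 1 := by
  ext r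
  simp only [mem_image, mem_Ioi, mem_Ioo]
  constructor
  · rintro ⟨y, hy, rfl⟩
    refine ⟨Real.exp_pos _, ?_⟩
    rw [Real.exp_lt_one_iff]
    linarith
  · rintro ⟨h0, h1⟩
    refine ⟨-(2 * Real.log r), ?_, ?_⟩
    · have := Real.log_neg h0 h1
      linarith
    · have e : -(-(2 * Real.log r)) / 2 = Real.log r := by ring
      rw [e, Real.exp_log h0]

theorem t_CV : S_CV := by
  intro n l _
  rw [intervalIntegral.integral_of_le zero_le_one, integral_Ioc_eq_integral_Ioo, ← image_exp,
    integral_image_eq_integral_abs_deriv_smul (f' := fun y => -(1 / 2) * Real.exp (-y / 2))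
      measurableSet_Ioi ?_ ?_ (fun r => |ph n l r| / r)]
  · rw [← integral_const_mul]
    refine setIntegral_congr_fun measurableSet_Ioi fun y _ => ?_
    simp only [smul_eq_mul]
    rw [gg_eq, abs_mul, abs_neg, abs_of_pos (Real.exp_pos _), abs_of_pos (by norm_num : (0 : ℝ) < 1 / 2)]
    have := (Real.exp_pos (-y / 2)).ne'
    field_simp
  · intro y _
    have h1 : HasDerivAt (fun y : ℝ => -y / 2) (-1 / 2) y := (hasDerivAt_id y).neg.div_const 2
    have h2 := h1.exp
    refine (h2.congr_deriv ?_).hasDerivWithinAt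
    ring
  · intro y _ z _ h
    have h1 := Real.exp_injective h
    linarith

end Pool.Agent.U667.RAD
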